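import Mathlib
import Pool.Agent.W2helper59.NW.Stm

/-!
# Nieuwland numbers: from the frozen condition to support functions (PA, PSw)
-/

set_option autoImplicit false
set_option linter.all false

namespace Pool.Agent.W2helper55.NW

open Matrix
open Pool.Agent.W2helper59.NW

lemma so_left {B : Matrix (Fin 3) (Fin 3) ℝ} (h : B ∈ Matrix.specialOrthogonalGroup (Fin 3) ℝ) :
    Bᵀ * B = 1 := by
  have h1 := (Matrix.mem_specialOrthogonalGroup_iff.1 h).1
  exact (Matrix.mem_orthogonalGroup_iff' _ _).1 h1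

lemma so_right {B : Matrix (Fin 3) (Fin 3) ℝ} (h : B ∈ Matrix.specialOrthogonalGroup (Fin 3) ℝ) :
    B * Bᵀ = 1 := by
  have h1 := (Matrix.mem_specialOrthogonalGroup_iff.1 h).1
  exact (Matrix.mem_orthogonalGroup_iff _ _).1 h1

lemma so_det {B : Matrix (Fin 3) (Fin 3) ℝ} (h : B ∈ Matrix.specialOrthogonalGroup (Fin 3) ℝ) :
    B.det = 1 := (Matrix.mem_specialOrthogonalGroup_iff.1 h).2

lemma so_mk {B : Matrix (Fin 3) (Fin 3) ℝ} (h : Bᵀ * B = 1) (h1 : B.det = 1) :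
    B ∈ Matrix.specialOrthogonalGroup (Fin 3) ℝ :=
  Matrix.mem_specialOrthogonalGroup_iff.2 ⟨(Matrix.mem_orthogonalGroup_iff' _ _).2 h, h1⟩

lemma dot_mulVec (M : Matrix (Fin 3) (Fin 3) ℝ) (x y : Fin 3 → ℝ) :
    (M.mulVec x) ⬝ᵥ y = x ⬝ᵥ (Mᵀ.mulVec y) := by
  rw [Matrix.dotProduct_mulVec, Matrix.vecMul_transpose]

/-- the maximum of a linear functional on the convex hull -/
lemma exists_ge (V : Set (Fin 3 → ℝ)) (w : Fin 3 → ℝ) {z : Fin 3 → ℝ}
    (hz : z ∈ convexHull ℝ V) : ∃ v ∈ V, z ⬝ᵥ w ≤ v ⬝ᵥ w := by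
  have hf : ConvexOn ℝ (convexHull ℝ V) (fun x : Fin 3 → ℝ => x ⬝ᵥ w) := by
    refine ⟨convex_convexHull ℝ V, fun x _ y _ a b _ _ _ => ?_⟩
    simp only [add_dotProduct, smul_dotProduct]
    exact le_refl _
  exact hf.exists_ge_of_mem_convexHull (subset_convexHull ℝ V) hz

theorem pa : PA := by
  intro V hV c ⟨hc, A, hA, B, hB, t, hin⟩
  refine ⟨B 2, Bᵀ * A, ?_, ?_, ?_⟩
  · refine so_mk ?_ ?_
    · rw [Matrix.transpose_mul, Matrix.transpose_transpose, Matrix.mul_assoc,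
        ← Matrix.mul_assoc B, so_right hB, Matrix.one_mul, so_left hA]
    · rw [Matrix.det_mul, Matrix.det_transpose, so_det hA, so_det hB, one_mul]
  · intro h0
    have h1 := congrFun (congrFun (so_right hB) 2) 2
    rw [Matrix.mul_apply] at h1
    simp only [Matrix.transpose_apply, Matrix.one_apply_eq] at h1
    rw [h0] at h1
    simp at h1
  · intro w hw q hq
    -- `w = Bᵀ w'`
    set w' := B.mulVec w with hw'
    have h2 : w' 2 = 0 := by
      rw [hw', Matrix.mulVec, dotProduct_comm]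
      exact hw
    have hBw : Bᵀ.mulVec w' = w := by
      rw [hw', Matrix.mulVec_mulVec, so_left hB, Matrix.one_mulVec]
    have key : ∀ q ∈ V, ∃ z ∈ convexHull ℝ V, (B.mulVec z) 0 = c * (A.mulVec q) 0 + t 0 ∧
        (B.mulVec z) 1 = c * (A.mulVec q) 1 + t 1 := by
      intro q hq
      have h3 := interior_subset (hin ⟨q, subset_convexHull ℝ V hq, rfl⟩)
      obtain ⟨z, hz, hzz⟩ := h3
      refine ⟨z, hz, ?_, ?_⟩
      · have := congrFun hzz 0
        simpa using this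
      · have := congrFun hzz 1
        simpa using this
    have hz : ∀ z : Fin 3 → ℝ, z ⬝ᵥ w = (B.mulVec z) 0 * w' 0 + (B.mulVec z) 1 * w' 1 := by
      intro z
      have h4 : z ⬝ᵥ w = (B.mulVec z) ⬝ᵥ w' := by rw [dot_mulVec, hBw]
      rw [h4, dotProduct, Fin.sum_univ_three, h2]
      ring
    have hR : ((Bᵀ * A).mulVec q) ⬝ᵥ w = (A.mulVec q) 0 * w' 0 + (A.mulVec q) 1 * w' 1 := by
      rw [← Matrix.mulVec_mulVec, dot_mulVec, Matrix.transpose_transpose, ← hw', dotProduct,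
        Fin.sum_univ_three, h2]
      ring
    obtain ⟨z1, hz1, e1, e2⟩ := key q hq
    obtain ⟨z2, hz2, e3, e4⟩ := key (-q) (hV q hq)
    rw [Matrix.mulVec_neg] at e3 e4
    obtain ⟨v1, hv1, i1⟩ := exists_ge V w hz1
    obtain ⟨v2, hv2, i2⟩ := exists_ge V (-w) hz2
    rw [dotProduct_neg, dotProduct_neg] at i2
    rw [hz, e1, e2] at i1
    rw [hz z2, e3, e4] at i2
    rw [hR]
    simp only [Pi.neg_apply] at i2
    rcases le_or_gt (c * ((A.mulVec q) 0 * w' 0 + (A.mulVec q) 1 * w' 1)) (v1 ⬝ᵥ w) with h | h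
    · exact ⟨v1, hv1, h⟩
    · refine ⟨-v2, hV v2 hv2, ?_⟩
      rw [neg_dotProduct]
      nlinarith

/-- the swap of the first two coordinates -/
def Psw : Matrix (Fin 3) (Fin 3) ℝ := !![0, 1, 0; 1, 0, 0; 0, 0, 1]

lemma Psw_mulVec (v : Fin 3 → ℝ) : Psw.mulVec v = ![v 1, v 0, v 2] := by
  ext i
  fin_cases i <;> simp [Psw, Matrix.mulVec, dotProduct, Fin.sum_univ_three]

lemma Psw_tr : Pswᵀ = Psw := by
  ext i j
  fin_cases i <;> fin_cases j <;> simp [Psw]

lemma Psw_sq : Psw * Psw = 1 := by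
  ext i j
  fin_cases i <;> fin_cases j <;> simp [Psw, Matrix.mul_apply, Fin.sum_univ_three]

lemma Psw_det : Psw.det = -1 := by
  rw [Matrix.det_fin_three]
  simp [Psw]

theorem psw : PSw := by
  rintro c ⟨u, R, hR, hu, h⟩
  refine ⟨![u 1, u 0, u 2], Psw * R * Psw, ?_, ?_, ?_⟩
  · refine so_mk ?_ ?_
    · rw [Matrix.transpose_mul, Matrix.transpose_mul, Psw_tr]
      calc Psw * (Rᵀ * Psw) * (Psw * R * Psw) = Psw * Rᵀ * (Psw * Psw) * R * Psw := by
            simp only [Matrix.mul_assoc]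
        _ = Psw * (Rᵀ * R) * Psw := by
            rw [Psw_sq, Matrix.mul_one, Matrix.mul_assoc Psw]
        _ = 1 := by rw [so_left hR, Matrix.mul_one, Psw_sq]
    · rw [Matrix.det_mul, Matrix.det_mul, so_det hR, Psw_det]
      norm_num
  · intro h0
    apply hu
    have h1 := congrFun h0 0
    have h2 := congrFun h0 1
    have h3 := congrFun h0 2
    simp at h1 h2 h3
    ext i
    fin_cases i
    · exact h2
    · exact h1
    · exact h3
  · intro w hw q hq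
    have hw' : ![w 1, w 0, w 2] ⬝ᵥ u = 0 := by
      rw [← hw]
      simp [dotProduct, Fin.sum_univ_three]
      ring
    obtain ⟨v, hv, hle⟩ := h ![w 1, w 0, w 2] hw' ![q 1, q 0, q 2] hq
    refine ⟨![v 1, v 0, v 2], ?_, ?_⟩
    · show ![(![v 1, v 0, v 2] : Fin 3 → ℝ) 1, (![v 1, v 0, v 2] : Fin 3 → ℝ) 0,
        (![v 1, v 0, v 2] : Fin 3 → ℝ) 2] ∈ VD
      have e : (![(![v 1, v 0, v 2] : Fin 3 → ℝ) 1, (![v 1, v 0, v 2] : Fin 3 → ℝ) 0,
        (![v 1, v 0, v 2] : Fin 3 → ℝ) 2] : Fin 3 → ℝ) = v := by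
        ext i
        fin_cases i <;> rfl
      rw [e]
      exact hv
    · have e1 : ((Psw * R * Psw).mulVec q) ⬝ᵥ w = (R.mulVec ![q 1, q 0, q 2]) ⬝ᵥ
          ![w 1, w 0, w 2] := by
        rw [← Psw_mulVec, ← Psw_mulVec, ← Matrix.mulVec_mulVec, ← Matrix.mulVec_mulVec,
          dot_mulVec, Psw_tr]
      have e2 : (![v 1, v 0, v 2] : Fin 3 → ℝ) ⬝ᵥ w = v ⬝ᵥ ![w 1, w 0, w 2] := by
        simp [dotProduct, Fin.sum_univ_three]
        ring
      rw [e1, e2]
      exact hle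

end Pool.Agent.W2helper55.NW
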