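import Mathlib
import Pool.Agent.W2helper55.NW.PA

/-!
# Nieuwland numbers: the passages of the icosahedron (LowI)
-/

set_option autoImplicit false
set_option linter.all false

namespace Pool.Agent.W2helper55.NW

open Matrix
open scoped goldenRatio
open Pool.Agent.W2helper59.NW

/-- rotation about the second axis -/
def My (A B : ℝ) : Matrix (Fin 3) (Fin 3) ℝ := !![A, 0, -B; 0, 1, 0; B, 0, A]

/-- rotation about the first axis -/
def Mx (p q : ℝ) : Matrix (Fin 3) (Fin 3) ℝ := !![1, 0, 0; 0, p, -q; 0, q, p]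

lemma My_so {A B : ℝ} (h : A ^ 2 + B ^ 2 = 1) : My A B ∈ Matrix.specialOrthogonalGroup (Fin 3) ℝ := by
  refine so_mk ?_ ?_
  · ext i j
    fin_cases i <;> fin_cases j <;>
      simp [My, Matrix.mul_apply, Fin.sum_univ_three] <;> linarith
  · rw [Matrix.det_fin_three]
    simp [My]
    linarith

lemma Mx_so {A B : ℝ} (h : A ^ 2 + B ^ 2 = 1) : Mx A B ∈ Matrix.specialOrthogonalGroup (Fin 3) ℝ := by
  refine so_mk ?_ ?_
  · ext i j
    fin_cases i <;> fin_cases j <;>
      simp [Mx, Matrix.mul_apply, Fin.sum_univ_three] <;> linarith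
  · rw [Matrix.det_fin_three]
    simp [Mx]
    linarith

lemma My_0 (A B : ℝ) (v : Fin 3 → ℝ) : (My A B).mulVec v 0 = A * v 0 - B * v 2 := by
  simp [My, Matrix.mulVec, dotProduct, Fin.sum_univ_three]
  ring

lemma My_1 (A B : ℝ) (v : Fin 3 → ℝ) : (My A B).mulVec v 1 = v 1 := by
  simp [My, Matrix.mulVec, dotProduct, Fin.sum_univ_three]

lemma Mx_0 (A B : ℝ) (v : Fin 3 → ℝ) : (Mx A B).mulVec v 0 = v 0 := by
  simp [Mx, Matrix.mulVec, dotProduct, Fin.sum_univ_three]

lemma Mx_1 (A B : ℝ) (v : Fin 3 → ℝ) : (Mx A B).mulVec v 1 = A * v 1 - B * v 2 := by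
  simp [Mx, Matrix.mulVec, dotProduct, Fin.sum_univ_three]
  ring

/-- the open hexagon -/
def Hex (k a : ℝ) : Set (Fin 2 → ℝ) := {y | y 1 < φ ∧ -y 1 < φ ∧ φ * y 0 + k * y 1 < φ * a ∧
  φ * y 0 - k * y 1 < φ * a ∧ -(φ * y 0) + k * y 1 < φ * a ∧ -(φ * y 0) - k * y 1 < φ * a}

lemma Hex_open (k a : ℝ) : IsOpen (Hex k a) := by
  have h0 : Continuous fun y : Fin 2 → ℝ => y 0 := continuous_apply 0
  have h1 : Continuous fun y : Fin 2 → ℝ => y 1 := continuous_apply 1
  refine IsOpen.inter (isOpen_lt h1 continuous_const) (IsOpen.inter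
    (isOpen_lt h1.neg continuous_const) (IsOpen.inter ?_ (IsOpen.inter ?_ (IsOpen.inter ?_ ?_))))
  · exact isOpen_lt ((continuous_const.mul h0).add (continuous_const.mul h1)) continuous_const
  · exact isOpen_lt ((continuous_const.mul h0).sub (continuous_const.mul h1)) continuous_const
  · exact isOpen_lt ((continuous_const.mul h0).neg.add (continuous_const.mul h1)) continuous_const
  · exact isOpen_lt ((continuous_const.mul h0).neg.sub (continuous_const.mul h1)) continuous_const

/-- a point of the hexagon is a convex combination of four vertices -/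
lemma hex_comb {S : Set (Fin 2 → ℝ)} (hS : Convex ℝ S) {a A e x y : ℝ} (ha : 0 < a) (hA : 0 < A)
    (he : 0 < e) (hy0 : 0 ≤ y) (hy : y < e) (h1 : e * x + (a - A) * y ≤ e * a)
    (h2 : -(e * x) + (a - A) * y ≤ e * a) {d : ℝ}
    (p1 : ![a, 0] ∈ S) (p2 : ![-a, 0] ∈ S) (p3 : ![A, d * e] ∈ S) (p4 : ![-A, d * e] ∈ S) :
    ![x, d * y] ∈ S := by
  -- the ratio
  set θ := y / e with hθ
  have t0 : 0 ≤ θ := div_nonneg hy0 he.le
  have t1 : θ ≤ 1 := (div_le_one he).2 hy.le
  have hye : y = θ * e := by rw [hθ]; field_simp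
  have q1 : ![(1 - θ) * a + θ * A, θ * (d * e)] ∈ S := by
    have := hS p1 p3 (a := 1 - θ) (b := θ) (by linarith) t0 (by ring)
    convert this using 1
    ext i
    fin_cases i <;> simp
  have q2 : ![-((1 - θ) * a + θ * A), θ * (d * e)] ∈ S := by
    have := hS p2 p4 (a := 1 - θ) (b := θ) (by linarith) t0 (by ring)
    convert this using 1
    ext i
    fin_cases i <;> simp
    ring
  set R := (1 - θ) * a + θ * A with hR
  have hR0 : 0 < R := by
    rcases eq_or_lt_of_le t1 with h | h
    · rw [hR, h]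
      linarith
    · have : 0 < (1 - θ) * a := mul_pos (by linarith) ha
      have : 0 ≤ θ * A := mul_nonneg t0 hA.le
      linarith
  have x1 : x ≤ R := by
    rw [hye] at h1
    have : e * x ≤ e * R := by rw [hR]; linarith
    exact le_of_mul_le_mul_left this he
  have x2 : -x ≤ R := by
    rw [hye] at h2
    have : e * (-x) ≤ e * R := by rw [hR]; linarith
    exact le_of_mul_le_mul_left this he
  have := hS q1 q2 (a := (1 + x / R) / 2) (b := (1 - x / R) / 2) (by
    have : -1 ≤ x / R := by
      rw [le_div_iff₀ hR0]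
      linarith
    linarith) (by
    have : x / R ≤ 1 := by
      rw [div_le_iff₀ hR0]
      linarith
    linarith) (by ring)
  convert this using 1
  ext i
  fin_cases i
  · simp
    field_simp
    ring
  · simp
    rw [hye]
    ring

theorem lowI : LowI := by
  intro A B p q ν hO c hc hcν
  have hφ : 1.618 < φ ∧ φ < 1.6181 := by
    constructor
    · have h1 : φ ^ 2 = φ + 1 := Real.goldenRatio_sq
      have h2 : 0 < φ := Real.goldenRatio_pos
      nlinarith
    · have h1 : φ ^ 2 = φ + 1 := Real.goldenRatio_sq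
      have h2 : 0 < φ := Real.goldenRatio_pos
      nlinarith
  obtain ⟨hφ1, hφ2⟩ := hφ
  have hA := abs_le.1 hO.nA
  have hB := abs_le.1 hO.nB
  have hp := abs_le.1 hO.np
  have hq := abs_le.1 hO.nq
  have hν := abs_le.1 hO.nc
  norm_num at hA hB hp hq hν
  have A1 : 0.96 < A := by linarith [hA.1]
  have A2 : A < 0.97 := by linarith [hA.2]
  have B1 : 0.26 < B := by linarith [hB.1]
  have B2 : B < 0.27 := by linarith [hB.2]
  have p1 : 0.93 < p := by linarith [hp.1]
  have p2 : p < 0.94 := by linarith [hp.2]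
  have q1 : 0.35 < q := by linarith [hq.1]
  have q2 : q < 0.36 := by linarith [hq.2]
  have c2 : c < 1.02 := by linarith [hν.2]
  set k := (φ - 1) * A + B with hk
  set a := φ * A + B with ha
  have hφ0 : 0 < φ := by linarith
  have k1 : 0.85 < k := by nlinarith
  have k2 : k < 0.88 := by nlinarith
  have a1 : 1.8 < a := by nlinarith
  refine ⟨hc, Mx p q, Mx_so hO.pq, My A B, My_so hO.AB, 0, ?_⟩
  -- the hexagon is in the shadow
  have hsub : Hex k a ⊆ (fun x : Fin 3 → ℝ => ![((My A B).mulVec x) 0, ((My A B).mulVec x) 1]) ''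
      convexHull ℝ VI := by
    set f : (Fin 3 → ℝ) → (Fin 2 → ℝ) :=
      fun x : Fin 3 → ℝ => ![((My A B).mulVec x) 0, ((My A B).mulVec x) 1] with hf
    have hlin : IsLinearMap ℝ f := by
      constructor
      · intro x y
        ext i
        fin_cases i <;> simp [hf, Matrix.mulVec_add]
      · intro r x
        ext i
        fin_cases i <;> simp [hf, Matrix.mulVec_smul]
    have hS : Convex ℝ (f '' convexHull ℝ VI) := (convex_convexHull ℝ VI).is_linear_image hlin
    have hfv : ∀ v ∈ VI, f v ∈ f '' convexHull ℝ VI := fun v hv => ⟨v, subset_convexHull ℝ VI hv, rfl⟩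
    have fe : ∀ v : Fin 3 → ℝ, f v = ![A * v 0 - B * v 2, v 1] := by
      intro v
      show ![((My A B).mulVec v) 0, ((My A B).mulVec v) 1] = _
      rw [My_0, My_1]
    have p1 : ![a, 0] ∈ f '' convexHull ℝ VI := by
      have h := hfv ![φ, 0, -1] ⟨-1, 1, Or.inr rfl, Or.inl rfl, Or.inr (Or.inr (by rw [one_mul]))⟩
      rw [fe] at h
      convert h using 1
      ext i
      fin_cases i <;> simp [ha]
      ring
    have p2 : ![-a, 0] ∈ f '' convexHull ℝ VI := by
      have h := hfv ![-φ, 0, 1] ⟨1, -1, Or.inl rfl, Or.inr rfl, Or.inr (Or.inr (by rw [neg_one_mul]))⟩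
      rw [fe] at h
      convert h using 1
      ext i
      fin_cases i <;> simp [ha]
      ring
    have p3 : ∀ d : ℝ, (d = 1 ∨ d = -1) → ![A, d * φ] ∈ f '' convexHull ℝ VI := by
      intro d hd
      have h := hfv ![1, d * φ, 0] ⟨1, d, Or.inl rfl, hd, Or.inr (Or.inl rfl)⟩
      rw [fe] at h
      convert h using 1
      ext i
      fin_cases i <;> simp
    have p4 : ∀ d : ℝ, (d = 1 ∨ d = -1) → ![-A, d * φ] ∈ f '' convexHull ℝ VI := by
      intro d hd
      have h := hfv ![-1, d * φ, 0] ⟨-1, d, Or.inr rfl, hd, Or.inr (Or.inl rfl)⟩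
      rw [fe] at h
      convert h using 1
      ext i
      fin_cases i <;> simp
    intro y hy
    obtain ⟨y1, y2, y3, y4, y5, y6⟩ := hy
    have hka : a - A = k := by rw [ha, hk]; ring
    have ey : y = ![y 0, y 1] := by
      ext i
      fin_cases i <;> rfl
    rcases le_total 0 (y 1) with h | h
    · have h3 := hex_comb hS (a := a) (A := A) (e := φ) (x := y 0) (y := y 1) (by linarith)
        (by linarith) hφ0 h y1 (by rw [hka]; linarith) (by rw [hka]; linarith) (d := 1) p1 p2
        (p3 1 (Or.inl rfl)) (p4 1 (Or.inl rfl))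
      rw [one_mul] at h3
      rw [ey]
      exact h3
    · have h3 := hex_comb hS (a := a) (A := A) (e := φ) (x := y 0) (y := -y 1) (by linarith)
        (by linarith) hφ0 (by linarith) y2 (by rw [hka]; linarith) (by rw [hka]; linarith) (d := -1)
        p1 p2 (p3 (-1) (Or.inr rfl)) (p4 (-1) (Or.inr rfl))
      rw [neg_one_mul, neg_neg] at h3
      rw [ey]
      exact h3
  refine Set.Subset.trans ?_ (interior_maximal hsub (Hex_open k a))
  rintro _ ⟨z, hz, rfl⟩
  -- the values at the vertices
  have i1 : c * (φ ^ 2 + k * q) < φ * a := by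
    have h1 : φ * a = ν * (φ ^ 2 + k * q) := hO.i1
    rw [h1]
    have : 0 < φ ^ 2 + k * q := by positivity
    exact mul_lt_mul_of_pos_right hcν this
  have i2 : c * (φ * (1 + k * p)) < φ * a := by
    have h1 : φ * a = ν * (φ * (1 + k * p)) := hO.i2
    rw [h1]
    have : 0 < φ * (1 + k * p) := by positivity
    exact mul_lt_mul_of_pos_right hcν this
  have key : ∀ α β M : ℝ, (∀ v ∈ VI, c * (α * v 0 + β * (p * v 1 - q * v 2)) < M) →
      α * (c * z 0) + β * (c * (p * z 1 - q * z 2)) < M := by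
    intro α β M h
    obtain ⟨v, hv, hle⟩ := exists_ge VI ![c * α, c * β * p, -(c * β * q)] hz
    have e : ∀ x : Fin 3 → ℝ, x ⬝ᵥ ![c * α, c * β * p, -(c * β * q)] =
        c * (α * x 0 + β * (p * x 1 - q * x 2)) := by
      intro x
      simp [dotProduct, Fin.sum_univ_three]
      ring
    rw [e, e] at hle
    have := h v hv
    linarith
  have m1 : 0 < c * φ ^ 2 := by positivity
  have m2 : 0 < c * (k * q) := by positivity
  have m3 : 0 < c * φ := by positivity
  have m4 : 0 < c * (φ * (k * p)) := by positivity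
  have m5 : 0 < c * (k * p) := by positivity
  have m6 : 0 < c * (φ * (k * q)) := by positivity
  have m7 : 0 < c * p := by positivity
  have m8 : 0 < c * (q * φ) := by positivity
  have m9 : 0 < c * q := by positivity
  have m10 : 0 < c * (p * φ) := by positivity
  have b1 : c * (p * φ) < φ := by
    have h1 : c * p < 1 := by nlinarith
    nlinarith
  have b2 : c * p + c * (q * φ) < φ := by
    have h1 : q * φ < 0.59 := by nlinarith
    have h2 : p + q * φ < 1.53 := by linarith
    have h3 : c * (p + q * φ) < 1.02 * 1.53 := by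
      have h4 : 0 < p + q * φ := by positivity
      nlinarith
    nlinarith
  have b3 : c * q < φ := by nlinarith
  have b4 : c * (k * p) + c * (φ * (k * q)) < φ * a := by
    have h1 : c * (k * p) + c * (φ * (k * q)) = k * (c * p + c * (q * φ)) := by ring
    rw [h1]
    have h2 : k * (c * p + c * (q * φ)) < 0.88 * φ := by nlinarith
    nlinarith
  have hUV : ∀ v ∈ VI, ∀ α β : ℝ, (α = 1 ∨ α = -1) → (β = 1 ∨ β = -1) →
      c * ((α * φ) * v 0 + (β * k) * (p * v 1 - q * v 2)) < φ * a := by
    rintro v ⟨s, t, hs, ht, rfl | rfl | rfl⟩ α β hα hβ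
    · simp only [Matrix.cons_val_zero, Matrix.cons_val_one, Matrix.cons_val]
      rcases hs with rfl | rfl <;> rcases ht with rfl | rfl <;> rcases hα with rfl | rfl <;>
        rcases hβ with rfl | rfl <;> first | linarith | nlinarith
    · simp only [Matrix.cons_val_zero, Matrix.cons_val_one, Matrix.cons_val]
      rcases hs with rfl | rfl <;> rcases ht with rfl | rfl <;> rcases hα with rfl | rfl <;>
        rcases hβ with rfl | rfl <;> first | linarith | nlinarith
    · simp only [Matrix.cons_val_zero, Matrix.cons_val_one, Matrix.cons_val]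
      rcases hs with rfl | rfl <;> rcases ht with rfl | rfl <;> rcases hα with rfl | rfl <;>
        rcases hβ with rfl | rfl <;> first | linarith | nlinarith
  have hV1 : ∀ v ∈ VI, ∀ β : ℝ, (β = 1 ∨ β = -1) →
      c * (0 * v 0 + β * (p * v 1 - q * v 2)) < φ := by
    rintro v ⟨s, t, hs, ht, rfl | rfl | rfl⟩ β hβ
    · simp only [Matrix.cons_val_zero, Matrix.cons_val_one, Matrix.cons_val]
      rcases hs with rfl | rfl <;> rcases ht with rfl | rfl <;>
        rcases hβ with rfl | rfl <;> first | linarith | nlinarith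
    · simp only [Matrix.cons_val_zero, Matrix.cons_val_one, Matrix.cons_val]
      rcases hs with rfl | rfl <;> rcases ht with rfl | rfl <;>
        rcases hβ with rfl | rfl <;> first | linarith | nlinarith
    · simp only [Matrix.cons_val_zero, Matrix.cons_val_one, Matrix.cons_val]
      rcases hs with rfl | rfl <;> rcases ht with rfl | rfl <;>
        rcases hβ with rfl | rfl <;> first | linarith | nlinarith
  have e0 : (c • ![((Mx p q).mulVec z) 0, ((Mx p q).mulVec z) 1] + 0 : Fin 2 → ℝ) =
      ![c * z 0, c * (p * z 1 - q * z 2)] := by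
    rw [Mx_0, Mx_1]
    ext i
    fin_cases i <;> simp
  show (c • ![((Mx p q).mulVec z) 0, ((Mx p q).mulVec z) 1] + 0 : Fin 2 → ℝ) ∈ Hex k a
  rw [e0]
  have g1 := key 0 1 φ (fun v hv => hV1 v hv 1 (Or.inl rfl))
  have g2 := key 0 (-1) φ (fun v hv => hV1 v hv (-1) (Or.inr rfl))
  have g3 := key (1 * φ) (1 * k) (φ * a) (fun v hv => hUV v hv 1 1 (Or.inl rfl) (Or.inl rfl))
  have g4 := key (1 * φ) (-1 * k) (φ * a) (fun v hv => hUV v hv 1 (-1) (Or.inl rfl) (Or.inr rfl))
  have g5 := key (-1 * φ) (1 * k) (φ * a) (fun v hv => hUV v hv (-1) 1 (Or.inr rfl) (Or.inl rfl))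
  have g6 := key (-1 * φ) (-1 * k) (φ * a) (fun v hv => hUV v hv (-1) (-1) (Or.inr rfl) (Or.inr rfl))
  refine ⟨?_, ?_, ?_, ?_, ?_, ?_⟩ <;> simp only [Matrix.cons_val_zero, Matrix.cons_val_one] <;> linarith

end Pool.Agent.W2helper55.NW
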